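import Mathlib

namespace Pool.Agent.Results.MP_781439_al.Counter
open Equiv

/-- the right-angled Artin group of a graph -/
abbrev RAAG {V : Type} (Γ : SimpleGraph V) : Type :=
  PresentedGroup {r | ∃ u v, Γ.Adj u v ∧
    r = FreeGroup.of u * FreeGroup.of v * (FreeGroup.of v * FreeGroup.of u)⁻¹}

/-- a sharply `k`-transitive action on the ordered rationals -/
def SharpQ (G : Type) [Group G] [MulAction G ℚ] (k : ℕ) : Prop :=
  (∀ g : G, StrictMono fun x : ℚ => g • x) ∧
    ∀ A B : Finset ℚ, A.card = k → B.card = k → ∃! g : G, A.image (fun x => g • x) = B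

def Γ : SimpleGraph ℕ where
  Adj u v := u ≠ v ∧ Even (max u v)
  symm := ⟨fun u v h => ⟨h.1.symm, by rw [max_comm]; exact h.2⟩⟩
  loopless := ⟨fun _ h => h.1 rfl⟩

abbrev A := RAAG Γ

def hom {H : Type} [Group H] (f : ℕ → H) (h : ∀ u v, Γ.Adj u v → Commute (f u) (f v)) : A →* H :=
  PresentedGroup.toGroup (f := f) (by
    rintro _ ⟨u, v, e, rfl⟩
    simp only [map_mul, map_inv, FreeGroup.lift_apply_of, mul_inv_eq_one]
    exact (h u v e).eq)

theorem hom_of {H : Type} [Group H] (f : ℕ → H) (h) (n : ℕ) : hom f h (.of n) = f n :=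
  PresentedGroup.toGroup.of _

theorem comm {u v : ℕ} (h : Γ.Adj u v) : Commute (.of u : A) (.of v) :=
  mul_inv_eq_one.1 (PresentedGroup.one_of_mem ⟨u, v, h, rfl⟩)

theorem pow_ne (n m : ℕ) : (.of n : A) ^ (m + 1) ≠ 1 := fun h => by
  have := congrArg (hom (fun _ => Multiplicative.ofAdd (1 : ℤ)) fun _ _ _ => Commute.refl _) h
  rw [map_pow, hom_of, MonoidHom.map_one, ← ofAdd_nsmul, ofAdd_eq_one] at this
  simp at this
  omega

theorem supp (x : A) : ∃ N, ∀ M ≥ N, x ∈ Subgroup.closure (PresentedGroup.of '' Set.Iio M) := by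
  have : x ∈ Subgroup.closure (Set.range PresentedGroup.of) := by
    rw [PresentedGroup.closure_range_of]; trivial
  induction this using Subgroup.closure_induction with
  | mem x hx =>
    obtain ⟨n, rfl⟩ := hx
    exact ⟨n + 1, fun M h => Subgroup.subset_closure ⟨n, h, rfl⟩⟩
  | one => exact ⟨0, fun _ _ => one_mem _⟩
  | mul x y _ _ hx hy =>
    obtain ⟨m, hm⟩ := hx
    obtain ⟨n, hn⟩ := hy
    exact ⟨max m n, fun M h => mul_mem (hm M (le_of_max_le_left h)) (hn M (le_of_max_le_right h))⟩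
  | inv x _ hx => exact hx.imp fun _ h M hM => inv_mem (h M hM)

theorem cen (g h : A) : ∃ v : A, v ≠ 1 ∧ Commute v g ∧ Commute v h := by
  obtain ⟨m, hm⟩ := supp g
  obtain ⟨n, hn⟩ := supp h
  have : Subgroup.closure (PresentedGroup.of '' Set.Iio (2 * (m + n))) ≤
      Subgroup.centralizer {(.of (2 * (m + n)) : A)} := by
    rw [Subgroup.closure_le]
    rintro _ ⟨u, hu, rfl⟩ _ rfl
    exact comm ⟨(ne_of_lt hu).symm, by rw [max_eq_left (le_of_lt hu)]; simp⟩
  exact ⟨_, by simpa using pow_ne _ 0, this (hm _ (by omega)) _ rfl, this (hn _ (by omega)) _ rfl⟩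

theorem nc {g h : A} (g1 : g ≠ 1) (h1 : h ≠ 1) (e : h * g ≠ 1) (c : Commute g h) :
    ∃ w, ¬ Commute g (w * h * w⁻¹) := by
  classical
  obtain ⟨m, hm⟩ := supp g
  obtain ⟨n, hn⟩ := supp h
  haveI : Infinite A := Infinite.of_injective (fun n : ℕ => (.of 0 : A) ^ n)
    (injective_pow_iff_not_isOfFinOrder.2 fun h => by
      obtain ⟨n, h1, h2⟩ := isOfFinOrder_iff_pow_eq_one.1 h
      exact pow_ne 0 (n - 1) (by rwa [Nat.sub_add_cancel h1]))
  obtain ⟨x, hx⟩ := Infinite.exists_notMem_finset ({1, h⁻¹, g, h * g} : Finset A)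
  simp only [Finset.mem_insert, Finset.mem_singleton, not_or] at hx
  let φ := hom (fun u => if u < 2 * (m + n) + 1 then MulAction.toPermHom A A (.of u) else
    if u = 2 * (m + n) + 1 then swap 1 x else 1) (by
      intro u v a
      have := Nat.even_iff.1 a.2
      have := a.1
      split_ifs <;> first | exact (comm a).map _ | omega | simp)
  have p : ∀ y ∈ Subgroup.closure (PresentedGroup.of '' Set.Iio (2 * (m + n) + 1)),
      φ y = MulAction.toPermHom A A y := fun y hy => MonoidHom.eqOn_closure (by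
    rintro _ ⟨u, hu, rfl⟩
    exact (hom_of _ _ u).trans (if_pos hu)) hy
  refine ⟨.of (2 * (m + n) + 1), fun k => ?_⟩
  have := DFunLike.congr_fun (k.map φ).eq 1
  have q : φ (.of (2 * (m + n) + 1)) = swap 1 x := by simp only [φ, hom_of]; simp
  simp only [map_mul, map_inv, p g (hm _ (by omega)), p h (hn _ (by omega)), q, swap_inv, Perm.mul_apply, MulAction.toPermHom_apply, MulAction.toPerm_apply,
    smul_eq_mul, swap_apply_left, mul_one] at this
  rw [swap_apply_of_ne_of_ne g1 (Ne.symm hx.2.2.1), swap_apply_of_ne_of_ne e (Ne.symm hx.2.2.2),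
    swap_apply_of_ne_of_ne (fun e => hx.2.1 (eq_inv_of_mul_eq_one_right e)) (by simpa using h1),
    ← mul_assoc, c.eq] at this
  exact hx.1 (by simpa using this)

theorem result : ∃ (V : Type) (_ : Countable V) (Γ : SimpleGraph V) (k : ℕ), 1 ≤ k ∧
    ¬ IsCyclic (RAAG Γ) ∧
    (¬ ∃ (H₁ H₂ : Type) (_ : Group H₁) (_ : Group H₂), Infinite H₁ ∧ Infinite H₂ ∧
      Nonempty (RAAG Γ ≃* H₁ × H₂)) ∧
    ∀ [MulAction (RAAG Γ) ℚ], ¬ SharpQ (RAAG Γ) k := by
  refine ⟨ℕ, inferInstance, Γ, 2, by omega, fun h => ?_, ?_, ?_⟩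
  · obtain ⟨w, hw⟩ := nc (g := .of 0) (h := .of 0) (by simpa using pow_ne 0 0)
      (by simpa using pow_ne 0 0) (by simpa [pow_succ] using pow_ne 0 1) (Commute.refl _)
    exact hw (IsCyclic.commGroup.mul_comm _ _)
  · rintro ⟨H, H', _, _, _, _, ⟨e⟩⟩
    obtain ⟨a, ha⟩ := exists_ne (1 : H)
    obtain ⟨b, hb⟩ := exists_ne (1 : H')
    have c : ∀ w, Commute (e.symm (a, 1)) (w * e.symm (1, b) * w⁻¹) := fun w =>
      e.injective (by simp [Prod.ext_iff])
    obtain ⟨w, hw⟩ := nc (g := e.symm (a, 1)) (h := e.symm (1, b)) (by simp [ha]) (by simp [hb])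
      (by rw [← map_mul]; simp [ha]) (by simpa using c 1)
    exact hw (c w)
  · rintro _ ⟨h1, h2⟩
    have k : ∀ (g : A) (x y : ℚ), x ≠ y → g • x = x → g • y = y → g = 1 := fun g x y h a b =>
      (h2 {x, y} {x, y} (Finset.card_pair h) (Finset.card_pair h)).unique (by simp [a, b]) (by simp)
    have l : ∀ x y : ℚ, x < y → ∃ g : A, g • (0 : ℚ) = x ∧ g • (1 : ℚ) = y := fun x y h => by
      obtain ⟨g, hg, -⟩ := h2 {0, 1} {x, y} (by simp) (Finset.card_pair h.ne)
      have a : g • (0 : ℚ) < g • 1 := h1 g one_pos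
      have b : g • (0 : ℚ) ∈ ({x, y} : Finset ℚ) := hg ▸ by simp
      have c : g • (1 : ℚ) ∈ ({x, y} : Finset ℚ) := hg ▸ by simp
      simp only [Finset.mem_insert, Finset.mem_singleton] at b c
      refine ⟨g, ?_⟩
      rcases b with b | b <;> rcases c with c | c <;> constructor <;> linarith
    obtain ⟨g, g0, g1⟩ := l 0 2 two_pos
    obtain ⟨h, h0, -⟩ := l 1 2 one_lt_two
    obtain ⟨v, v1, a, b⟩ := cen g h
    have v0 : v • (0 : ℚ) = 0 := by
      by_contra hne
      rw [k g _ 0 hne (by rw [← mul_smul, ← a.eq, mul_smul, g0]) g0, one_smul] at g1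
      norm_num at g1
    exact v1 (k v 0 1 zero_ne_one v0 (by rw [← h0, ← mul_smul, b.eq, mul_smul, v0]))

end Pool.Agent.Results.MP_781439_al.Counter
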